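import Pool.Graph.R_seed8.H624U.AA
import Pool.Graph.R_seed8.H624U.CB
import Pool.Graph.R_seed8.H624U.CT
import Pool.Graph.R_seed8.H624U.CV
import Pool.Graph.R_seed8.H624U.DT
import Pool.Graph.R_seed8.H624U.DU
import Pool.Graph.R_seed8.H624U.DX
import Pool.Graph.R_seed8.H624U.E1
import Pool.Graph.R_seed8.H624U.EX
import Pool.Graph.R_seed8.H624U.EY
import Pool.Graph.R_seed8.H624U.FA
import Pool.Graph.R_seed8.H624U.HY
import Pool.Graph.R_seed8.H624U.JU
import Pool.Graph.R_seed8.H624U.KS
import Pool.Graph.R_seed8.H624U.L0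
import Pool.Graph.R_seed8.H624U.LD
import Pool.Graph.R_seed8.H624U.LT
import Pool.Graph.R_seed8.H624U.MR
import Pool.Graph.R_seed8.H624U.MU
import Pool.Graph.R_seed8.H624U.PB
import Pool.Graph.R_seed8.H624U.SD
import Pool.Graph.R_seed8.H624U.SM
import Pool.Graph.R_seed8.H624U.ST
import Pool.Graph.R_seed8.H624U.TI
import Pool.Graph.R_seed8.H624U.UC
import Pool.Graph.R_seed8.H624U.UE
import Pool.Graph.R_seed8.H624U.VU
import Pool.Graph.R_seed8.H624U.Z3
import Pool.Agent.H47.UQ.VJ
import Pool.Agent.H47.UQ.MS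
import Pool.Agent.H47.UQ.GD
import Pool.Agent.H47.UQ.VS
import Pool.Agent.H47.UQ.FN
import Pool.Agent.H47.UQ.MA

set_option autoImplicit false

/-!
# The chromatic number of the random graph process jumps without a uniquely `k`-colourable
subgraph, for a positive proportion of all `n`

Fix `k ≥ 3`. Let `p(n)` be the probability that in the random graph process on `n` vertices the first
graph which is not `k`-colourable contains no uniquely `k`-colourable subgraph other than a triangle.
The question is whether `p(n)` tends to `0`. We prove that there is `γ > 0` such that `p(n) ≥ γ`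
for a set of `n` of positive lower density; there are `R` and `κ > 0` such that for all large `N`
this is true for at least `κ N` of the numbers `n` with `N ≤ n < R N`. In particular `p(n)` does not
tend to `0`.

The library's proof of `¬ (p(n) → 0)` (`Pool.Graph.R_seed8.Results.MP_73831e_pr.NoUniqueAtJump`,
infinitely many `n`) chooses one `n` between `N` and `R N` by a pigeonhole argument. The new
ingredient is an upper bound for the decrease of the integrated probability from `n` to `n + 1`
(`Pool.Agent.H47.UQ.drop_upper`), which gives a positive proportion of good `n`.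
-/

namespace Pool.Agent.Results.MP_73831e_pr.PositiveDensity

open Pool.Agent.H624C Pool.Agent.H624U Pool.Agent.H47.UQ

theorem fin_thm : S_fin := by
  have huce := UE_thm
  have hucc := UC_thm huce
  have hjump := JU_thm hucc
  obtain ⟨hmpu, hmpu1⟩ := MU_thm
  obtain ⟨hdeg, hdiff⟩ := DX_thm EX_thm
  have hstep := ST_thm E1_thm
  obtain ⟨hsmall, hlarge⟩ := SM_thm
  have hA := AA_thm hstep hsmall hlarge
  have hcovb := CB_thm hA hlarge
  have hmrg := MR_thm E1_thm hA hlarge hcovb
  have hVJ := VJ'_thm (DR'_thm HY_thm hdeg hdiff hmpu1) (SJ_thm HY_thm hdeg hdiff hmpu1)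
  have hVU := VU_thm hdeg hmpu1
  have hmass := MS'_thm hVJ hVU FA_thm (EY_thm huce) LT_thm SD_thm LD_thm L0_thm
  have hgood := GD'_thm hmass hjump hmrg (KS_thm hmpu1)
  have hvis := VS'_thm hgood (CT_thm hjump) (Z3_thm hjump) (DU_thm hmpu)
  exact FN'_thm hvis PB_thm DT_thm TI_thm

/-- orderings of all pairs of vertices (edges of the complete graph on `Fin n`) -/
abbrev Ordering (n : ℕ) := Fin (Nat.card (⊤ : SimpleGraph (Fin n)).edgeSet) ≃
  (⊤ : SimpleGraph (Fin n)).edgeSet

/-- the graph formed by the first `m` pairs of the ordering `σ` -/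
def stage {n : ℕ} (σ : Ordering n) (m : ℕ) : SimpleGraph (Fin n) :=
  SimpleGraph.fromEdgeSet {e : Sym2 (Fin n) |
    ∃ i : Fin (Nat.card (⊤ : SimpleGraph (Fin n)).edgeSet), (i : ℕ) < m ∧ (σ i).val = e}

/-- `H` is uniquely `k`-colourable: its chromatic number is `k` and any two proper `k`-colourings
differ by a permutation of the colours -/
def UniquelyColourable (k : ℕ) {W : Type} (H : SimpleGraph W) : Prop :=
  H.chromaticNumber = k ∧
    ∀ c c' : H.Coloring (Fin k), ∃ π : Equiv.Perm (Fin k), ∀ v, c' v = π (c v)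

/-- `Γ` contains a uniquely `k`-colourable subgraph which is not a triangle -/
def ContainsUnique (k : ℕ) {W : Type} (Γ : SimpleGraph W) : Prop :=
  ∃ H : Γ.Subgraph, UniquelyColourable k H.coe ∧
    ¬ Nonempty (H.coe ≃g (⊤ : SimpleGraph (Fin 3)))

/-- for the ordering `σ`, the first stage which is not `k`-colourable contains no uniquely
`k`-colourable subgraph other than a triangle -/
def NoUniqueAtJump (k : ℕ) {n : ℕ} (σ : Ordering n) : Prop :=
  ∃ m : ℕ, ¬ (stage σ m).Colorable k ∧ (∀ m' < m, (stage σ m').Colorable k) ∧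
    ¬ ContainsUnique k (stage σ m)

/-- the probability of `NoUniqueAtJump` over a uniformly random ordering -/
noncomputable def prob (k n : ℕ) : ℝ :=
  (Nat.card {σ : Ordering n // NoUniqueAtJump k σ} : ℝ) / (Nat.card (Ordering n) : ℝ)

theorem prob_eq (k n : ℕ) : prob k n = probNoUC k n := rfl

/-- `prob k n` is the probability that in the random graph process on `Fin n` the first graph
which is not `k`-colourable contains no uniquely `k`-colourable subgraph other than a triangle.
For every `k ≥ 3` there is `γ > 0` such that the set of all `n` with `γ ≤ prob k n` has positive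
lower density; more precisely, it contains at least `κ N` of the numbers `N, …, R N - 1` for all
large `N`, with constants `R` and `κ > 0`. In particular `prob k n` does not tend to `0`. -/
theorem result : ∀ k : ℕ, 3 ≤ k →
    (∃ γ : ℝ, 0 < γ ∧
      (∃ κ : ℝ, 0 < κ ∧ ∀ᶠ x : ℕ in Filter.atTop,
        κ * x ≤ ({n : ℕ | n < x ∧ γ ≤ prob k n}.ncard : ℝ)) ∧
      (∃ (R : ℕ) (κ : ℝ), 0 < κ ∧ ∀ᶠ N : ℕ in Filter.atTop,
        κ * N ≤ ({n : ℕ | N ≤ n ∧ n < R * N ∧ γ ≤ prob k n}.ncard : ℝ))) ∧
    ¬ Filter.Tendsto (prob k) Filter.atTop (nhds 0) := by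
  classical
  intro k hk
  obtain ⟨R, γ, κ, n0, hR, hγ, hκ, h⟩ := MA'_thm fin_thm CV_thm k hk
  have hblock : ∀ N ≥ n0, κ * N ≤ ({n : ℕ | N ≤ n ∧ n < R * N ∧ γ ≤ prob k n}.ncard : ℝ) := by
    intro N hN
    refine (h N hN).trans (le_of_eq ?_)
    rw [← Set.ncard_coe_finset]
    congr 2
    ext n
    simp only [Finset.coe_filter, Finset.mem_Ico, Set.mem_ofPred_eq, prob_eq, and_assoc]
  have hdens : ∀ x ≥ R * (n0 + 1), κ / (2 * R) * x ≤ ({n : ℕ | n < x ∧ γ ≤ prob k n}.ncard : ℝ) := by
    intro x hx
    refine (density_of_blocks hR hκ h x hx).trans (le_of_eq ?_)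
    rw [← Set.ncard_coe_finset]
    congr 2
    ext n
    simp only [Finset.coe_filter, Finset.mem_range, Set.mem_ofPred_eq, prob_eq]
  refine ⟨⟨γ, hγ, ⟨κ / (2 * R), by positivity, ?_⟩, R, κ, hκ, ?_⟩, ?_⟩
  · exact Filter.eventually_atTop.2 ⟨_, hdens⟩
  · exact Filter.eventually_atTop.2 ⟨_, hblock⟩
  · intro ht
    have hev := ht.eventually (gt_mem_nhds hγ)
    rw [Filter.eventually_atTop] at hev
    obtain ⟨N0, hN0⟩ := hev
    have h1 := hblock (max (max n0 N0) 1) (le_trans (le_max_left _ _) (le_max_left _ _))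
    have h2 : 0 < {n : ℕ | max (max n0 N0) 1 ≤ n ∧ n < R * max (max n0 N0) 1 ∧
        γ ≤ prob k n}.ncard := by
      have h3 : (0 : ℝ) < κ * ((max (max n0 N0) 1 : ℕ) : ℝ) := by
        have : (0 : ℝ) < ((max (max n0 N0) 1 : ℕ) : ℝ) := by
          exact_mod_cast lt_of_lt_of_le one_pos (le_max_right _ _)
        positivity
      exact_mod_cast lt_of_lt_of_le h3 h1
    obtain ⟨n, hn1, -, hn3⟩ := Set.nonempty_of_ncard_ne_zero h2.ne'
    have h4 : N0 ≤ n := le_trans (le_trans (le_max_right _ _) (le_max_left _ _)) hn1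
    exact absurd (hN0 n h4) (not_lt.2 hn3)

end Pool.Agent.Results.MP_73831e_pr.PositiveDensity
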